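import Pool.Agent.helper72.UP.Spec

set_option autoImplicit false

namespace Pool.Agent.helper72.UP

open Finset

lemma UPC_weights {n : ℕ} (S : Finset (Fin n → ℝ))
    (h : ∀ i : Fin n, (Pi.single i 1 : Fin n → ℝ) ∉ Submodule.span ℝ (S : Set (Fin n → ℝ))) :
    ∃ x : Fin n → ℝ, (∀ i, x i ≠ 0) ∧ ∀ v ∈ S, ∑ i, v i * x i = 0 := by
  set W := Submodule.span ℝ (S : Set (Fin n → ℝ)) with hW
  obtain ⟨f, hf⟩ := Module.exists_dual_forall_apply_ne_zero (K := ℝ)
    (fun i : Fin n => W.mkQ (Pi.single i 1)) (fun i => by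
      rw [Ne, Submodule.mkQ_apply, Submodule.Quotient.mk_eq_zero]; exact h i)
  refine ⟨fun i => f (W.mkQ (Pi.single i 1)), hf, fun v hv => ?_⟩
  have hvW : W.mkQ v = 0 := by
    rw [Submodule.mkQ_apply, Submodule.Quotient.mk_eq_zero]
    exact Submodule.subset_span hv
  have hv2 : v = ∑ i, v i • (Pi.single i (1 : ℝ) : Fin n → ℝ) := by
    ext j
    simp [Finset.sum_apply, Pi.single_apply]
  have h0 : f (W.mkQ v) = 0 := by rw [hvW, map_zero]
  have h1 : f (W.mkQ v) = ∑ i, v i * f (W.mkQ (Pi.single i 1)) := by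
    conv_lhs => rw [hv2]
    simp only [map_sum, map_smul, smul_eq_mul]
  rw [← h1, h0]

theorem UPC : UPC_stmt := by
  classical
  intro n k m hm
  obtain ⟨S, hS, hunit, rfl⟩ := hm
  obtain ⟨x, hx, hxS⟩ := UPC_weights S hunit
  refine ⟨x, hx, ?_⟩
  unfold zer
  refine Finset.card_le_card_of_injOn (fun v => univ.filter (fun i => v i = 1)) ?_ ?_
  · intro v hv
    have hv' : v ∈ S := Finset.mem_coe.1 hv
    rw [Finset.mem_coe, Finset.mem_filter]
    refine ⟨Finset.mem_univ _, ?_, (hS v hv').2.2, ?_⟩
    · by_contra hne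
      have hne : univ.filter (fun i => v i = 1) = ∅ := Finset.not_nonempty_iff_eq_empty.1 hne
      apply (hS v hv').2.1
      ext i
      rcases (hS v hv').1 i with h0 | h1
      · rw [h0]; rfl
      · exfalso
        have : i ∈ univ.filter (fun i => v i = 1) := by
          rw [Finset.mem_filter]; exact ⟨Finset.mem_univ _, h1⟩
        rw [hne] at this
        exact absurd this (Finset.notMem_empty _)
    · have h1 := hxS v hv'
      rw [← Finset.sum_filter_add_sum_filter_not univ (fun i => v i = 1)] at h1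
      have z : ∑ j ∈ univ.filter (fun j => ¬ v j = 1), v j * x j = 0 := by
        apply Finset.sum_eq_zero
        intro j hj
        have hj' := (Finset.mem_filter.1 hj).2
        rcases (hS v hv').1 j with h | h
        · rw [h, zero_mul]
        · exact absurd h hj'
      rw [z, add_zero] at h1
      rw [← h1]
      apply Finset.sum_congr rfl
      intro j hj
      rw [(Finset.mem_filter.1 hj).2, one_mul]
  · intro v hv w hw hvw
    have hv' : v ∈ S := Finset.mem_coe.1 hv
    have hw' : w ∈ S := Finset.mem_coe.1 hw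
    have hvw' : univ.filter (fun i => v i = 1) = univ.filter (fun i => w i = 1) := hvw
    ext i
    have h1 : v i = 1 ↔ w i = 1 := by
      have : i ∈ univ.filter (fun i => v i = 1) ↔ i ∈ univ.filter (fun i => w i = 1) := by
        rw [hvw']
      simpa using this
    rcases (hS v hv').1 i with hv0 | hv1
    · rcases (hS w hw').1 i with hw0 | hw1
      · rw [hv0, hw0]
      · rw [hw1]; exact h1.2 hw1
    · rw [hv1]; exact (h1.1 hv1).symm

end Pool.Agent.helper72.UP
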