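import Pool.Agent.helper72.UP.Spec

set_option autoImplicit false

namespace Pool.Agent.helper72.UP

open Finset

private lemma RAT_step (H i : ℕ) (hi : i ≤ H) :
    (H.choose (i + 1) : ℝ) * ((i : ℝ) + 1) = H.choose i * ((H : ℝ) - i) := by
  have h := Nat.choose_succ_right_eq H i
  have h' : ((H.choose (i + 1) * (i + 1) : ℕ) : ℝ) = ((H.choose i * (H - i) : ℕ) : ℝ) := by rw [h]
  rw [Nat.cast_mul, Nat.cast_mul, Nat.cast_sub hi, Nat.cast_add, Nat.cast_one] at h'
  exact h'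

theorem RAT : RAT_stmt := by
  intro n i h1 h2 h3
  have hn : 0 < n := by omega
  have hHh : (n + 1) / 2 + n / 2 = n := by omega
  have hiH : i ≤ (n + 1) / 2 := by omega
  have hih : i ≤ n / 2 := by omega
  unfold uu
  have e1 := RAT_step ((n + 1) / 2) i hiH
  have e2 := RAT_step (n / 2) i hih
  set H := (n + 1) / 2 with hH
  set h := n / 2 with hh
  have hnR : (0 : ℝ) < n := by exact_mod_cast hn
  have hiR : (1 : ℝ) ≤ i := by exact_mod_cast h3
  have h1R : (n : ℝ) ≤ 4 * i := by exact_mod_cast h1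
  have h2R : 2 * (i : ℝ) ≤ n := by exact_mod_cast h2
  have hHhR : (H : ℝ) + h = n := by exact_mod_cast hHh
  have hiHR : (i : ℝ) ≤ H := by exact_mod_cast hiH
  have hihR : (i : ℝ) ≤ h := by exact_mod_cast hih
  set t : ℝ := (4 * (i : ℝ) - n) / n with ht
  have htn : t * n = 4 * i - n := by
    rw [ht]; field_simp
  have ht1 : t ≤ 1 := by
    rw [ht, div_le_one hnR]; linarith
  have hexp : 1 - t ≤ Real.exp (-t) := by
    have := Real.add_one_le_exp (-t)
    linarith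
  have hexpos : 0 < Real.exp (-t) := Real.exp_pos _
  have key : (n : ℝ) / 2 - i ≤ ((i : ℝ) + 1) * Real.exp (-t) := by
    have a1 : ((i : ℝ) + 1) * (1 - t) ≤ ((i : ℝ) + 1) * Real.exp (-t) :=
      mul_le_mul_of_nonneg_left hexp (by linarith)
    have a2 : (i : ℝ) * (1 - t) ≤ ((i : ℝ) + 1) * (1 - t) := by nlinarith
    have a3 : (n : ℝ) / 2 - i ≤ (i : ℝ) * (1 - t) := by
      have a4 : ((i : ℝ) * (1 - t)) * n = i * (2 * n - 4 * i) := by
        have : ((i : ℝ) * (1 - t)) * n = i * (n - t * n) := by ring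
        rw [this, htn]; ring
      have a5 : ((n : ℝ) / 2 - i) * n ≤ ((i : ℝ) * (1 - t)) * n := by
        rw [a4]; nlinarith
      exact le_of_mul_le_mul_right a5 hnR
    linarith
  have hsq : Real.exp (-(2 * (4 * (i : ℝ) - n) / n)) = Real.exp (-t) * Real.exp (-t) := by
    rw [← Real.exp_add]
    refine congrArg Real.exp ?_
    rw [ht]; ring
  rw [hsq]
  have hpos : (0 : ℝ) < ((i : ℝ) + 1) * ((i : ℝ) + 1) := by positivity
  have hu : (0 : ℝ) ≤ (H.choose i : ℝ) * h.choose i := by positivity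
  have b1 : ((H : ℝ) - i) * ((h : ℝ) - i) ≤ ((n : ℝ) / 2 - i) * ((n : ℝ) / 2 - i) := by
    have : (n : ℝ) / 2 = ((H : ℝ) + h) / 2 := by rw [hHhR]
    rw [this]
    nlinarith [sq_nonneg ((H : ℝ) - h)]
  have hk0 : 0 ≤ (n : ℝ) / 2 - i := by linarith
  have b2 : ((n : ℝ) / 2 - i) * ((n : ℝ) / 2 - i) ≤
      (((i : ℝ) + 1) * Real.exp (-t)) * (((i : ℝ) + 1) * Real.exp (-t)) :=
    mul_le_mul key key hk0 (hk0.trans key)
  have main : ((H.choose (i + 1) * h.choose (i + 1) : ℕ) : ℝ) * (((i : ℝ) + 1) * ((i : ℝ) + 1)) ≤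
      (((H.choose i * h.choose i : ℕ) : ℝ) * (Real.exp (-t) * Real.exp (-t))) *
        (((i : ℝ) + 1) * ((i : ℝ) + 1)) := by
    rw [Nat.cast_mul, Nat.cast_mul]
    calc (H.choose (i + 1) : ℝ) * h.choose (i + 1) * (((i : ℝ) + 1) * ((i : ℝ) + 1))
        = ((H.choose (i + 1) : ℝ) * ((i : ℝ) + 1)) * ((h.choose (i + 1) : ℝ) * ((i : ℝ) + 1)) := by ring
      _ = ((H.choose i : ℝ) * ((H : ℝ) - i)) * ((h.choose i : ℝ) * ((h : ℝ) - i)) := by rw [e1, e2]
      _ = ((H.choose i : ℝ) * h.choose i) * (((H : ℝ) - i) * ((h : ℝ) - i)) := by ring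
      _ ≤ ((H.choose i : ℝ) * h.choose i) * ((((i : ℝ) + 1) * Real.exp (-t)) * (((i : ℝ) + 1) * Real.exp (-t))) :=
        mul_le_mul_of_nonneg_left (b1.trans b2) hu
      _ = _ := by ring
  exact le_of_mul_le_mul_right main hpos

end Pool.Agent.helper72.UP
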